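import Mathlib

/-!
# A transcendence measure of pi: definitions

`Dl lam t g = (d/dX + lam)^t g`, the integer polynomials `qq`, `Q`, the frequencies `lam`,
the coefficient polynomials `gg` and the auxiliary function `FF`.
-/

namespace Pool.Agent.PM

open Polynomial Finset

noncomputable section

/-- `(d/dX + l)^t g`. -/
def Dl (l : ℂ) (t : ℕ) (g : ℂ[X]) : ℂ[X] :=
  (fun h : ℂ[X] => derivative h + C l * h)^[t] g

/-- `cos (k pi / 2)` -/
def cc (k : ℕ) : ℤ := if k % 4 = 0 then 1 else if k % 4 = 2 then -1 else 0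

/-- the polynomial in `X = pi` of twice the derivative of order `t` of `w^a cos (2 (b + 1) w)`
at `w = pi s` -/
def qq (a b t s : ℕ) : ℤ[X] :=
  ∑ j ∈ range (t + 1), monomial (a - j) (2 * (t.choose j : ℤ) * (a.descFactorial j : ℤ) *
    (s : ℤ) ^ (a - j) * (2 * ((b : ℤ) + 1)) ^ (t - j) * cc (t - j))

/-- the polynomial of the derivative of order `t` at `pi s` -/
def Q (M L : ℕ) (v : ℕ → ℕ → ℤ[X]) (t s : ℕ) : ℤ[X] :=
  ∑ a ∈ range M, ∑ b ∈ range L, v a b * qq a b t s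

/-- the frequencies `2 (b + 1) i` and `- 2 (b + 1) i` -/
def lam (i : ℕ × Bool) : ℂ := (if i.2 then 1 else -1) * (2 * ((i.1 : ℂ) + 1)) * Complex.I

/-- the index set of the frequencies -/
def ix (L : ℕ) : Finset (ℕ × Bool) := range L ×ˢ (univ : Finset Bool)

/-- the coefficient polynomials at `X = z` -/
def gg (M : ℕ) (v : ℕ → ℕ → ℤ[X]) (z : ℂ) (b : ℕ) : ℂ[X] :=
  ∑ a ∈ range M, C (aeval z (v a b)) * X ^ a

/-- the auxiliary function -/
def FF (M L : ℕ) (v : ℕ → ℕ → ℤ[X]) (w : ℂ) : ℂ :=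
  ∑ i ∈ ix L, (gg M v (Real.pi : ℂ) i.1).eval w * Complex.exp (lam i * w)

/-- the Mahler measure of an integer polynomial -/
def Mm (P : ℤ[X]) : ℝ := (P.map (Int.castRingHom ℂ)).mahlerMeasure

/-- the bound for the coefficients of `qq` -/
def Bq (M L T S : ℕ) : ℝ := 2 * (T + 1) * (4 * L * M) ^ T * S ^ M

end

end Pool.Agent.PM
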