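import Mathlib
import Pool.Agent.Helper34.PM.Defs

/-! Numerical bounds for the transcendence measure of pi. -/

namespace Pool.Agent.PM

open Polynomial Finset

/-- bound for `Bq` by powers of `E` -/
theorem Bq_le34 {N S : ℕ} {E : ℝ} (hN : 1 ≤ N) (hE : (10 ^ 5 * N : ℝ) ≤ E) (hS : S ≤ 10 * N) :
    Bq (4000 * N) N (1000 * N) S ≤ E ^ (6001 * N) := by
  have hN0 : (1 : ℝ) ≤ N := by exact_mod_cast hN
  have hE1 : 1 ≤ E := by linarith
  have hE0 : 0 ≤ E := by linarith
  have h1 : 2 * (((1000 * N : ℕ) : ℝ) + 1) ≤ E := by push_cast; linarith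
  have h2 : (4 * (N : ℝ) * ((4000 * N : ℕ) : ℝ)) ≤ E ^ 2 := by
    push_cast
    calc (4 * (N : ℝ) * (4000 * N)) = 16000 * N ^ 2 := by ring
      _ ≤ (10 ^ 5 * N) ^ 2 := by nlinarith
      _ ≤ E ^ 2 := by gcongr
  have h3 : (S : ℝ) ≤ E := by
    have : (S : ℝ) ≤ 10 * N := by exact_mod_cast hS
    linarith
  unfold Bq
  calc 2 * (((1000 * N : ℕ) : ℝ) + 1) * (4 * (N : ℝ) * ((4000 * N : ℕ) : ℝ)) ^ (1000 * N) *
        (S : ℝ) ^ (4000 * N)
      ≤ E * (E ^ 2) ^ (1000 * N) * E ^ (4000 * N) := by gcongr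
    _ = E ^ (1 + 6000 * N) := by rw [← pow_mul, pow_add, pow_one, mul_assoc, ← pow_add]; ring_nf
    _ ≤ E ^ (6001 * N) := pow_le_pow_right₀ hE1 (by omega)

/-- bound for the coefficients after Siegel and division -/
theorem H1_le34 {N : ℕ} {E : ℝ} (hN : 1 ≤ N) (hE : (10 ^ 5 * N : ℝ) ≤ E) :
    2 ^ (4000 * N) * (((4000 * N : ℕ) + 1) *
      (((4000 * N : ℕ) : ℝ) * N * ((4000 * N : ℕ) : ℝ) * Bq (4000 * N) N (1000 * N) N)) ≤
      E ^ (10005 * N) := by
  have hN0 : (1 : ℝ) ≤ N := by exact_mod_cast hN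
  have hE1 : 1 ≤ E := by linarith
  have hE0 : 0 ≤ E := by linarith
  have hB := Bq_le34 (S := N) hN hE (by omega)
  have hB0 : 0 ≤ Bq (4000 * N) N (1000 * N) N := by unfold Bq; positivity
  have h1 : (((4000 * N : ℕ) : ℝ) + 1) ≤ E := by push_cast; linarith
  have h2 : ((4000 * N : ℕ) : ℝ) ≤ E := by push_cast; linarith
  have h3 : (N : ℝ) ≤ E := by linarith
  have h4 : (2 : ℝ) ≤ E := by linarith
  calc 2 ^ (4000 * N) * (((4000 * N : ℕ) + 1) *
      (((4000 * N : ℕ) : ℝ) * N * ((4000 * N : ℕ) : ℝ) * Bq (4000 * N) N (1000 * N) N))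
      ≤ E ^ (4000 * N) * (E * (E * E * E * E ^ (6001 * N))) := by gcongr
    _ = E ^ (10001 * N + 4) := by
        rw [show 10001 * N + 4 = 4000 * N + (4 + 6001 * N) by ring, pow_add, pow_add]
        ring
    _ ≤ E ^ (10005 * N) := pow_le_pow_right₀ hE1 (by omega)

/-- bound for the coefficients of the polynomials `Q` -/
theorem H2_le34 {N : ℕ} {E H1 : ℝ} (hN : 1 ≤ N) (hE : (10 ^ 5 * N : ℝ) ≤ E)
    (hH : H1 ≤ E ^ (10005 * N)) (hH0 : 0 ≤ H1) :
    (((8000 * N : ℕ) : ℝ) + 1) * (((4000 * N : ℕ) : ℝ) * N * (((4000 * N : ℕ) : ℝ) * H1 *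
      Bq (4000 * N) N (1000 * N) (10 * N))) ≤ E ^ (16010 * N) := by
  have hN0 : (1 : ℝ) ≤ N := by exact_mod_cast hN
  have hE1 : 1 ≤ E := by linarith
  have hE0 : 0 ≤ E := by linarith
  have hB := Bq_le34 (S := 10 * N) hN hE le_rfl
  have hB0 : 0 ≤ Bq (4000 * N) N (1000 * N) (10 * N) := by unfold Bq; positivity
  have h1 : (((8000 * N : ℕ) : ℝ) + 1) ≤ E := by push_cast; linarith
  have h2 : ((4000 * N : ℕ) : ℝ) ≤ E := by push_cast; linarith
  have h3 : (N : ℝ) ≤ E := by linarith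
  calc (((8000 * N : ℕ) : ℝ) + 1) * (((4000 * N : ℕ) : ℝ) * N * (((4000 * N : ℕ) : ℝ) * H1 *
      Bq (4000 * N) N (1000 * N) (10 * N)))
      ≤ E * (E * E * (E * E ^ (10005 * N) * E ^ (6001 * N))) := by gcongr
    _ = E ^ (16006 * N + 4) := by
        rw [show 16006 * N + 4 = 4 + (10005 * N + 6001 * N) by ring, pow_add, pow_add]
        ring
    _ ≤ E ^ (16010 * N) := pow_le_pow_right₀ hE1 (by omega)

/-- bound for the value of `Q` at `pi` -/
theorem val_le34 {N t : ℕ} {E H1 : ℝ} (hN : 1 ≤ N) (hE : (10 ^ 5 * N : ℝ) ≤ E)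
    (hH : H1 ≤ E ^ (10005 * N)) (hH0 : 0 ≤ H1) (ht : t < 1000 * N) :
    (t.factorial : ℝ) *
      ((2 * N * (4000 * N : ℕ) * ((4000 * N : ℕ) * 4 ^ (4000 * N) * H1) *
        (300 * N : ℝ) ^ (4000 * N) * Real.exp (2 * N * (300 * N))) *
        (1 / 8) ^ (N * (1000 * N))) ≤ E ^ (19009 * N) * Real.exp (-(1400 * N ^ 2)) := by
  have hN0 : (1 : ℝ) ≤ N := by exact_mod_cast hN
  have hE1 : 1 ≤ E := by linarith
  have hE0 : 0 ≤ E := by linarith
  have h1 : (t.factorial : ℝ) ≤ E ^ (1000 * N) := by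
    calc (t.factorial : ℝ) ≤ ((t ^ t : ℕ) : ℝ) := by exact_mod_cast Nat.factorial_le_pow t
      _ = (t : ℝ) ^ t := by push_cast; rfl
      _ ≤ E ^ t := by
          have : (t : ℝ) ≤ E := by
            have : (t : ℝ) ≤ 1000 * N := by exact_mod_cast ht.le
            linarith
          gcongr
      _ ≤ E ^ (1000 * N) := pow_le_pow_right₀ hE1 ht.le
  have h2 : ((4000 * N : ℕ) : ℝ) ≤ E := by push_cast; linarith
  have h3 : 2 * (N : ℝ) ≤ E := by linarith
  have h4 : (4 : ℝ) ≤ E := by linarith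
  have h5 : (300 * N : ℝ) ≤ E := by linarith
  have h8 : (1 / 8 : ℝ) ≤ Real.exp (-2) := by
    rw [Real.exp_neg, one_div]
    apply inv_anti₀ (Real.exp_pos _)
    have := Real.exp_one_lt_d9
    calc Real.exp 2 = Real.exp 1 * Real.exp 1 := by rw [← Real.exp_add]; norm_num
      _ ≤ 2.7182818286 * 2.7182818286 := by
          apply mul_le_mul this.le this.le (Real.exp_pos _).le (by norm_num)
      _ ≤ 8 := by norm_num
  have h9 : (1 / 8 : ℝ) ^ (N * (1000 * N)) ≤ Real.exp (-(2000 * N ^ 2)) := by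
    calc (1 / 8 : ℝ) ^ (N * (1000 * N)) ≤ (Real.exp (-2)) ^ (N * (1000 * N)) :=
          pow_le_pow_left₀ (by norm_num) h8 _
      _ = Real.exp (-(2000 * N ^ 2)) := by
          rw [← Real.exp_nat_mul]
          congr 1
          push_cast
          ring
  calc (t.factorial : ℝ) *
      ((2 * N * (4000 * N : ℕ) * ((4000 * N : ℕ) * 4 ^ (4000 * N) * H1) *
        (300 * N : ℝ) ^ (4000 * N) * Real.exp (2 * N * (300 * N))) *
        (1 / 8) ^ (N * (1000 * N)))
      ≤ E ^ (1000 * N) * ((E * E * (E * E ^ (4000 * N) * E ^ (10005 * N)) *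
        E ^ (4000 * N) * Real.exp (2 * N * (300 * N))) * Real.exp (-(2000 * N ^ 2))) := by
        gcongr
    _ = E ^ (19005 * N + 3) * (Real.exp (2 * N * (300 * N)) * Real.exp (-(2000 * N ^ 2))) := by
        rw [show 19005 * N + 3 = 1000 * N + (3 + (4000 * N + (10005 * N + 4000 * N))) by ring,
          pow_add, pow_add, pow_add, pow_add]
        ring
    _ = E ^ (19005 * N + 3) * Real.exp (-(1400 * N ^ 2)) := by
        rw [← Real.exp_add]
        congr 2
        ring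
    _ ≤ E ^ (19009 * N) * Real.exp (-(1400 * N ^ 2)) := by
        have := pow_le_pow_right₀ hE1 (show 19005 * N + 3 ≤ 19009 * N by omega)
        exact mul_le_mul_of_nonneg_right this (Real.exp_pos _).le

theorem E_ge34 {m : ℕ} (hm : 1 ≤ m) :
    (10 ^ 5 * (1000 * m ^ 2 : ℕ) : ℝ) ≤ Real.exp (20 * m) := by
  have hm0 : (1 : ℝ) ≤ m := by exact_mod_cast hm
  have h1 : (10 ^ 8 : ℝ) ≤ Real.exp 20 := by
    have := Real.exp_one_gt_d9
    calc (10 ^ 8 : ℝ) ≤ 2.7 ^ 20 := by norm_num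
      _ ≤ (Real.exp 1) ^ 20 := by
          apply pow_le_pow_left₀ (by norm_num)
          linarith
      _ = Real.exp 20 := by rw [← Real.exp_nat_mul]; norm_num
  have h2 : (m : ℝ) ≤ Real.exp (m - 1) := by
    have := Real.add_one_le_exp ((m : ℝ) - 1)
    linarith
  have h3 : (m : ℝ) ^ 2 ≤ Real.exp (20 * (m - 1)) := by
    calc (m : ℝ) ^ 2 ≤ m ^ 20 := pow_le_pow_right₀ hm0 (by norm_num)
      _ ≤ (Real.exp (m - 1)) ^ 20 := pow_le_pow_left₀ (by linarith) h2 _
      _ = Real.exp (20 * (m - 1)) := by rw [← Real.exp_nat_mul]; norm_num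
  calc (10 ^ 5 * (1000 * m ^ 2 : ℕ) : ℝ) = 10 ^ 8 * (m : ℝ) ^ 2 := by push_cast; ring
    _ ≤ Real.exp 20 * Real.exp (20 * (m - 1)) := by gcongr
    _ = Real.exp (20 * m) := by rw [← Real.exp_add]; congr 1; ring

/-- the smallness condition -/
theorem main1_34 {m N d : ℕ} (hm : 1 ≤ m) (hN : N = 1000 * m ^ 2) (hd : d ≤ m) {mu V W : ℝ}
    (hmu : 1 ≤ mu) (hmu1 : Real.log mu ≤ m)
    (hV : V ≤ Real.exp (20 * m) ^ (19009 * N) * Real.exp (-(1400 * N ^ 2))) (hV0 : 0 ≤ V)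
    (hW : W ≤ Real.exp (20 * m) ^ (16010 * N)) (hW0 : 0 ≤ W) :
    2 * V * W ^ d * mu ^ (8000 * N) ≤ 1 := by
  have hm0 : (1 : ℝ) ≤ m := by exact_mod_cast hm
  have hNr : (N : ℝ) = 1000 * m ^ 2 := by rw [hN]; push_cast; ring
  have hN1 : (1 : ℝ) ≤ N := by rw [hNr]; nlinarith
  have hmue : mu ≤ Real.exp m := by
    rw [← Real.log_le_iff_le_exp (by linarith)]
    exact hmu1
  have hdr : (d : ℝ) ≤ m := by exact_mod_cast hd
  have hWd : W ^ d ≤ Real.exp (320200 * N * m ^ 2) := by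
    calc W ^ d ≤ (Real.exp (20 * m) ^ (16010 * N)) ^ d := pow_le_pow_left₀ hW0 hW _
      _ = Real.exp (320200 * N * (m * d)) := by
          rw [← pow_mul, ← Real.exp_nat_mul]
          congr 1
          push_cast
          ring
      _ ≤ Real.exp (320200 * N * m ^ 2) := by
          apply Real.exp_le_exp.mpr
          have : (m : ℝ) * d ≤ m ^ 2 := by nlinarith
          gcongr
  have hmup : mu ^ (8000 * N) ≤ Real.exp (8000 * N * m) := by
    calc mu ^ (8000 * N) ≤ (Real.exp m) ^ (8000 * N) :=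
          pow_le_pow_left₀ (by linarith) hmue _
      _ = Real.exp (8000 * N * m) := by
          rw [← Real.exp_nat_mul]
          congr 1
          push_cast
          ring
  have hVe : V ≤ Real.exp (380180 * N * m - 1400 * N ^ 2) := by
    refine hV.trans (le_of_eq ?_)
    rw [← Real.exp_nat_mul, ← Real.exp_add]
    congr 1
    push_cast
    ring
  have h2 : (2 : ℝ) ≤ Real.exp 1 := by
    have := Real.add_one_le_exp (1 : ℝ)
    linarith
  calc 2 * V * W ^ d * mu ^ (8000 * N)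
      ≤ Real.exp 1 * Real.exp (380180 * N * m - 1400 * N ^ 2) *
        Real.exp (320200 * N * m ^ 2) * Real.exp (8000 * N * m) := by gcongr
    _ = Real.exp (1 + (380180 * N * m - 1400 * N ^ 2) + 320200 * N * m ^ 2 + 8000 * N * m) := by
        rw [← Real.exp_add, ← Real.exp_add, ← Real.exp_add]
    _ ≤ Real.exp 0 := by
        apply Real.exp_le_exp.mpr
        have h3 : 1400 * (N : ℝ) ^ 2 = 1400000 * N * m ^ 2 := by
          rw [sq, hNr]
          ring
        have h4 : (N : ℝ) * m ≤ N * m ^ 2 := by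
          have : (m : ℝ) ≤ m ^ 2 := by nlinarith
          gcongr
        have h5 : (1 : ℝ) ≤ N * m ^ 2 := by nlinarith
        linarith
    _ = 1 := Real.exp_zero

/-- the final bound -/
theorem main2_34 {m N d : ℕ} (hm : 1 ≤ m) (hN : N = 1000 * m ^ 2) (hd : d ≤ m) {mu W : ℝ}
    (hmu : 1 ≤ mu) (hmu1 : Real.log mu ≤ m)
    (hW : W ≤ Real.exp (20 * m) ^ (16010 * N)) (hW0 : 0 ≤ W) :
    (2 * 5 ^ (8000 * N) * (((8000 * N : ℕ) : ℝ) + 1) * W ^ d * mu ^ (8000 * N)) ^ d ≤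
      Real.exp (500000000 * (m : ℝ) ^ 5) := by
  have hm0 : (1 : ℝ) ≤ m := by exact_mod_cast hm
  have hNr : (N : ℝ) = 1000 * m ^ 2 := by rw [hN]; push_cast; ring
  have hN1 : (1 : ℝ) ≤ N := by rw [hNr]; nlinarith
  have hNn : 1 ≤ N := by exact_mod_cast hN1
  have hE := E_ge34 hm
  rw [← hN] at hE
  have hmue : mu ≤ Real.exp m := by
    rw [← Real.log_le_iff_le_exp (by linarith)]
    exact hmu1
  have hdr : (d : ℝ) ≤ m := by exact_mod_cast hd
  have hWd : W ^ d ≤ Real.exp (320200 * N * m ^ 2) := by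
    calc W ^ d ≤ (Real.exp (20 * m) ^ (16010 * N)) ^ d := pow_le_pow_left₀ hW0 hW _
      _ = Real.exp (320200 * N * (m * d)) := by
          rw [← pow_mul, ← Real.exp_nat_mul]
          congr 1
          push_cast
          ring
      _ ≤ Real.exp (320200 * N * m ^ 2) := by
          apply Real.exp_le_exp.mpr
          have : (m : ℝ) * d ≤ m ^ 2 := by nlinarith
          gcongr
  have hmup : mu ^ (8000 * N) ≤ Real.exp (8000 * N * m) := by
    calc mu ^ (8000 * N) ≤ (Real.exp m) ^ (8000 * N) :=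
          pow_le_pow_left₀ (by linarith) hmue _
      _ = Real.exp (8000 * N * m) := by
          rw [← Real.exp_nat_mul]
          congr 1
          push_cast
          ring
  have h5 : (5 : ℝ) ^ (8000 * N) ≤ Real.exp (160000 * N * m) := by
    calc (5 : ℝ) ^ (8000 * N) ≤ (Real.exp (20 * m)) ^ (8000 * N) :=
          pow_le_pow_left₀ (by norm_num) (by linarith) _
      _ = Real.exp (160000 * N * m) := by
          rw [← Real.exp_nat_mul]
          congr 1
          push_cast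
          ring
  have h2 : (2 : ℝ) ≤ Real.exp (20 * m) := by linarith
  have h3 : (((8000 * N : ℕ) : ℝ) + 1) ≤ Real.exp (20 * m) := by push_cast; linarith
  have hNm : (m : ℝ) ≤ N * m ^ 2 := by nlinarith
  have h4 : (N : ℝ) * m ≤ N * m ^ 2 := by
    have : (m : ℝ) ≤ m ^ 2 := by nlinarith
    gcongr
  have hbr : 2 * 5 ^ (8000 * N) * (((8000 * N : ℕ) : ℝ) + 1) * W ^ d * mu ^ (8000 * N) ≤
      Real.exp (500000 * N * m ^ 2) := by
    calc 2 * 5 ^ (8000 * N) * (((8000 * N : ℕ) : ℝ) + 1) * W ^ d * mu ^ (8000 * N)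
        ≤ Real.exp (20 * m) * Real.exp (160000 * N * m) * Real.exp (20 * m) *
          Real.exp (320200 * N * m ^ 2) * Real.exp (8000 * N * m) := by gcongr
      _ = Real.exp (20 * m + 160000 * N * m + 20 * m + 320200 * N * m ^ 2 +
          8000 * N * m) := by
          rw [← Real.exp_add, ← Real.exp_add, ← Real.exp_add, ← Real.exp_add]
      _ ≤ Real.exp (500000 * N * m ^ 2) := by
          apply Real.exp_le_exp.mpr
          linarith
  calc (2 * 5 ^ (8000 * N) * (((8000 * N : ℕ) : ℝ) + 1) * W ^ d * mu ^ (8000 * N)) ^ d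
      ≤ (Real.exp (500000 * N * m ^ 2)) ^ d := pow_le_pow_left₀ (by positivity) hbr _
    _ = Real.exp (500000000 * m ^ 4 * d) := by
        rw [← Real.exp_nat_mul]
        congr 1
        rw [hNr]
        ring
    _ ≤ Real.exp (500000000 * (m : ℝ) ^ 5) := by
        apply Real.exp_le_exp.mpr
        calc 500000000 * (m : ℝ) ^ 4 * d ≤ 500000000 * (m : ℝ) ^ 4 * m := by gcongr
          _ = 500000000 * (m : ℝ) ^ 5 := by ring

end Pool.Agent.PM
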