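import Mathlib
import Pool.Agent.Helper34.PM.Defs

/-! The polynomials `qq` and `Q`: degrees and coefficients. -/

namespace Pool.Agent.Helper34.PM

open Polynomial Finset Pool.Agent.PM

theorem Q_mul (M L : ℕ) (v : ℕ → ℕ → ℤ[X]) (P : ℤ[X]) (t s : ℕ) :
    Q M L (fun a b => P * v a b) t s = P * Q M L v t s := by
  unfold Q
  rw [Finset.mul_sum]
  refine Finset.sum_congr rfl fun a _ => ?_
  rw [Finset.mul_sum]
  exact Finset.sum_congr rfl fun b _ => by ring

theorem qq_natDegree (a b t s : ℕ) : (qq a b t s).natDegree ≤ a := by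
  unfold qq
  refine natDegree_sum_le_of_forall_le _ _ fun j _ => ?_
  exact (natDegree_monomial_le _).trans (Nat.sub_le _ _)

theorem cc_abs_le (k : ℕ) : |(cc k : ℝ)| ≤ 1 := by
  unfold cc
  split_ifs <;> simp

/-- coefficients of `qq` -/
theorem qq_coeff {M L T S : ℕ} {a b t s : ℕ} (ha : a < M) (hb : b < L) (ht : t < T)
    (hs : s < S) (i : ℕ) : |((qq a b t s).coeff i : ℝ)| ≤ Bq M L T S := by
  have hM : (1 : ℝ) ≤ M := by exact_mod_cast (show 1 ≤ M by omega)
  have hL : (1 : ℝ) ≤ L := by exact_mod_cast (show 1 ≤ L by omega)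
  have hS : (1 : ℝ) ≤ S := by exact_mod_cast (show 1 ≤ S by omega)
  have haM : (a : ℝ) ≤ M := by exact_mod_cast ha.le
  have hsS : (s : ℝ) ≤ S := by exact_mod_cast hs.le
  have hbL : (b : ℝ) + 1 ≤ L := by exact_mod_cast hb
  have h4 : (1 : ℝ) ≤ 4 * L * M := by nlinarith
  unfold qq
  rw [finsetSum_coeff]
  push_cast
  refine (Finset.abs_sum_le_sum_abs _ _).trans ?_
  have hterm : ∀ j ∈ range (t + 1), |(((monomial (a - j) (2 * (t.choose j : ℤ) * (a.descFactorial j : ℤ) *
      (s : ℤ) ^ (a - j) * (2 * ((b : ℤ) + 1)) ^ (t - j) * cc (t - j))).coeff i : ℤ) : ℝ)| ≤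
      2 * (4 * L * M) ^ T * S ^ M := by
    intro j hj
    rw [Finset.mem_range] at hj
    rw [coeff_monomial]
    split_ifs with h
    · push_cast
      have h1 : |(t.choose j : ℝ)| ≤ 2 ^ T := by
        rw [abs_of_nonneg (by positivity)]
        calc (t.choose j : ℝ) ≤ 2 ^ t := by exact_mod_cast Nat.choose_le_two_pow t j
          _ ≤ 2 ^ T := pow_le_pow_right₀ (by norm_num) ht.le
      have h2 : |(a.descFactorial j : ℝ)| ≤ M ^ T := by
        rw [abs_of_nonneg (by positivity)]
        calc (a.descFactorial j : ℝ) ≤ (a : ℝ) ^ j := by exact_mod_cast Nat.descFactorial_le_pow a j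
          _ ≤ (M : ℝ) ^ j := by gcongr
          _ ≤ (M : ℝ) ^ T := pow_le_pow_right₀ hM (by omega)
      have h3 : |(s : ℝ) ^ (a - j)| ≤ S ^ M := by
        rw [abs_of_nonneg (by positivity)]
        calc (s : ℝ) ^ (a - j) ≤ (S : ℝ) ^ (a - j) := by gcongr
          _ ≤ (S : ℝ) ^ M := pow_le_pow_right₀ hS (by omega)
      have h5 : |(2 * ((b : ℝ) + 1)) ^ (t - j)| ≤ (2 * L) ^ T := by
        rw [abs_of_nonneg (by positivity)]
        calc (2 * ((b : ℝ) + 1)) ^ (t - j) ≤ (2 * (L : ℝ)) ^ (t - j) := by gcongr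
          _ ≤ (2 * (L : ℝ)) ^ T := pow_le_pow_right₀ (by linarith) (by omega)
      have h6 := cc_abs_le (t - j)
      rw [abs_mul, abs_mul, abs_mul, abs_mul, abs_mul, abs_two]
      calc 2 * |(t.choose j : ℝ)| * |(a.descFactorial j : ℝ)| * |(s : ℝ) ^ (a - j)| *
            |(2 * ((b : ℝ) + 1)) ^ (t - j)| * |(cc (t - j) : ℝ)|
          ≤ 2 * 2 ^ T * M ^ T * S ^ M * (2 * L) ^ T * 1 := by gcongr
        _ = 2 * (4 * L * M) ^ T * S ^ M := by
            rw [show (4 * (L : ℝ) * M) = 2 * (M * (2 * L)) by ring, mul_pow 2 ((M : ℝ) * (2 * L)),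
              mul_pow (M : ℝ)]
            ring
    · simp only [Int.cast_zero, abs_zero]
      positivity
  refine (Finset.sum_le_sum hterm).trans ?_
  rw [Finset.sum_const, Finset.card_range, nsmul_eq_mul]
  unfold Bq
  have h7 : ((t + 1 : ℕ) : ℝ) ≤ T + 1 := by
    push_cast
    have : (t : ℝ) ≤ T := by exact_mod_cast ht.le
    linarith
  calc ((t + 1 : ℕ) : ℝ) * (2 * (4 * L * M) ^ T * S ^ M)
      ≤ (T + 1) * (2 * (4 * L * M) ^ T * S ^ M) := by gcongr
    _ = 2 * (T + 1) * (4 * L * M) ^ T * S ^ M := by ring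

theorem Q_natDegree {M L K : ℕ} {v : ℕ → ℕ → ℤ[X]} (hd : ∀ a b, (v a b).natDegree < K)
    (t s : ℕ) : (Q M L v t s).natDegree ≤ K + M := by
  unfold Q
  refine natDegree_sum_le_of_forall_le _ _ fun a ha => ?_
  refine natDegree_sum_le_of_forall_le _ _ fun b _ => ?_
  rw [Finset.mem_range] at ha
  refine natDegree_mul_le.trans ?_
  have h1 := qq_natDegree a b t s
  have h2 := hd a b
  omega

theorem Q_coeff {M L T S K : ℕ} {v : ℕ → ℕ → ℤ[X]} {H : ℝ}
    (hd : ∀ a b, (v a b).natDegree < K) (hH : ∀ a b i, |((v a b).coeff i : ℝ)| ≤ H)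
    {t s : ℕ} (ht : t < T) (hs : s < S) (i : ℕ) :
    |((Q M L v t s).coeff i : ℝ)| ≤ M * L * (K * H * Bq M L T S) := by
  have hH0 : 0 ≤ H := le_trans (abs_nonneg _) (hH 0 0 0)
  have hB0 : 0 ≤ Bq M L T S := by unfold Bq; positivity
  unfold Q
  rw [finsetSum_coeff]
  simp_rw [finsetSum_coeff]
  push_cast
  refine (Finset.abs_sum_le_sum_abs _ _).trans ?_
  have hab : ∀ a ∈ range M, |∑ b ∈ range L, (((v a b * qq a b t s).coeff i : ℤ) : ℝ)| ≤
      L * (K * H * Bq M L T S) := by
    intro a ha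
    rw [Finset.mem_range] at ha
    refine (Finset.abs_sum_le_sum_abs _ _).trans ?_
    have hb : ∀ b ∈ range L, |(((v a b * qq a b t s).coeff i : ℤ) : ℝ)| ≤ K * H * Bq M L T S := by
      intro b hb
      rw [Finset.mem_range] at hb
      rw [coeff_mul]
      push_cast
      refine (Finset.abs_sum_le_sum_abs _ _).trans ?_
      have h1 : ∀ p ∈ antidiagonal i, |((v a b).coeff p.1 : ℝ) * ((qq a b t s).coeff p.2 : ℝ)| ≤
          if p.1 < K then H * Bq M L T S else 0 := by
        intro p _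
        split_ifs with h
        · rw [abs_mul]
          exact mul_le_mul (hH a b p.1) (qq_coeff ha hb ht hs p.2) (abs_nonneg _) hH0
        · rw [coeff_eq_zero_of_natDegree_lt (by have := hd a b; omega)]
          simp
      refine (Finset.sum_le_sum h1).trans ?_
      rw [← Finset.sum_filter, Finset.sum_const, nsmul_eq_mul]
      have h2 : ((antidiagonal i).filter fun p : ℕ × ℕ => p.1 < K).card ≤ K := by
        have h3 : ((antidiagonal i).filter fun p : ℕ × ℕ => p.1 < K).card ≤ (range K).card := by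
          refine Finset.card_le_card_of_injOn (fun p => p.1) ?_ ?_
          · intro p hp
            have := (Finset.mem_filter.mp hp).2
            exact Finset.mem_coe.mpr (Finset.mem_range.mpr this)
          · intro p hp q hq hpq
            have hp1 := Finset.HasAntidiagonal.mem_antidiagonal.mp (Finset.mem_filter.mp hp).1
            have hq1 := Finset.HasAntidiagonal.mem_antidiagonal.mp (Finset.mem_filter.mp hq).1
            simp only at hpq
            ext
            · exact hpq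
            · omega
        simpa using h3
      have h4 : ((((antidiagonal i).filter fun p : ℕ × ℕ => p.1 < K).card : ℕ) : ℝ) ≤ K := by
        exact_mod_cast h2
      calc ((((antidiagonal i).filter fun p : ℕ × ℕ => p.1 < K).card : ℕ) : ℝ) * (H * Bq M L T S)
          ≤ K * (H * Bq M L T S) := by gcongr
        _ = K * H * Bq M L T S := by ring
    refine (Finset.sum_le_sum hb).trans ?_
    rw [Finset.sum_const, Finset.card_range, nsmul_eq_mul]
  refine (Finset.sum_le_sum hab).trans ?_
  rw [Finset.sum_const, Finset.card_range, nsmul_eq_mul]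
  exact le_of_eq (by ring)

end Pool.Agent.Helper34.PM
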