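import Mathlib
import Pool.Agent.Helper34.PM.Defs
import Pool.Agent.Helper44.PM.Zero

/-! The values of `Q`. -/

namespace Pool.Agent.Helper34.PM

open Polynomial Finset Pool.Agent.PM

private theorem Dl_add34 (l : ℂ) (t : ℕ) (g h : ℂ[X]) : Dl l t (g + h) = Dl l t g + Dl l t h := by
  induction t with
  | zero => rfl
  | succ t ih =>
    rw [Pool.Agent.Helper44.PM.Dl_succ, Pool.Agent.Helper44.PM.Dl_succ,
      Pool.Agent.Helper44.PM.Dl_succ, ih, derivative_add]
    ring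

private theorem Dl_sum34 (l : ℂ) (t : ℕ) (s : Finset ℕ) (g : ℕ → ℂ[X]) :
    Dl l t (∑ a ∈ s, g a) = ∑ a ∈ s, Dl l t (g a) := by
  classical
  induction s using Finset.induction_on with
  | empty => simp [Pool.Agent.Helper44.PM.Dl_zero]
  | insert a s ha ih => rw [Finset.sum_insert ha, Finset.sum_insert ha, Dl_add34, ih]

private theorem I_pow34 (k : ℕ) : (Complex.I) ^ k + (-Complex.I) ^ k = 2 * (cc k : ℂ) := by
  obtain ⟨q, r, hr, rfl⟩ : ∃ q r, r < 4 ∧ k = 4 * q + r := ⟨k / 4, k % 4, Nat.mod_lt _ (by norm_num), (Nat.div_add_mod k 4).symm⟩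
  have h4 : (-Complex.I) ^ 4 = 1 := by rw [neg_pow, Complex.I_pow_four]; norm_num
  rw [pow_add, pow_add, pow_mul, pow_mul, Complex.I_pow_four, h4, one_pow, one_mul, one_mul]
  unfold cc
  rw [show (4 * q + r) % 4 = r by omega]
  interval_cases r
  · norm_num
  · norm_num
  · norm_num
  · norm_num [pow_succ]

theorem Q_eval (M L : ℕ) (v : ℕ → ℕ → ℤ[X]) (t s : ℕ) (z : ℂ) :
    aeval z (Q M L v t s) =
      ∑ i ∈ ix L, (Dl (lam i) t (gg M v z i.1)).eval ((s : ℂ) * z) := by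
  have h1 : ∀ i : ℕ × Bool, (Dl (lam i) t (gg M v z i.1)).eval ((s : ℂ) * z) =
      ∑ a ∈ range M, aeval z (v a i.1) * ∑ j ∈ range (t + 1),
        (t.choose j : ℂ) * (a.descFactorial j : ℂ) * ((s : ℂ) * z) ^ (a - j) * lam i ^ (t - j) := by
    intro i
    unfold gg
    rw [Dl_sum34, eval_finsetSum]
    exact Finset.sum_congr rfl fun a _ => Pool.Agent.Helper44.PM.Dl_eval _ _ _ _ _
  simp_rw [h1]
  unfold ix
  rw [Finset.sum_product]
  simp only [Fintype.sum_bool]
  unfold Q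
  rw [map_sum]
  simp_rw [map_sum, map_mul]
  rw [Finset.sum_comm]
  refine Finset.sum_congr rfl fun b _ => ?_
  rw [← Finset.sum_add_distrib]
  refine Finset.sum_congr rfl fun a _ => ?_
  rw [← mul_add, ← Finset.sum_add_distrib]
  congr 1
  unfold qq
  rw [map_sum]
  refine Finset.sum_congr rfl fun j _ => ?_
  rw [aeval_monomial]
  have h2 := I_pow34 (t - j)
  have h3 : lam (b, true) ^ (t - j) + lam (b, false) ^ (t - j) =
      (2 * ((b : ℂ) + 1)) ^ (t - j) * (2 * (cc (t - j) : ℂ)) := by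
    rw [← h2]
    unfold lam
    simp only [if_true, Bool.false_eq_true, if_false]
    rw [show (1 : ℂ) * (2 * ((b : ℂ) + 1)) * Complex.I = (2 * ((b : ℂ) + 1)) * Complex.I by ring,
      show (-1 : ℂ) * (2 * ((b : ℂ) + 1)) * Complex.I = (2 * ((b : ℂ) + 1)) * (-Complex.I) by ring,
      mul_pow (2 * ((b : ℂ) + 1)) Complex.I, mul_pow (2 * ((b : ℂ) + 1)) (-Complex.I)]
    generalize (2 * ((b : ℂ) + 1)) ^ (t - j) = y
    ring
  rw [← mul_add, h3, mul_pow (s : ℂ) z]
  simp only [algebraMap_int_eq, eq_intCast]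
  push_cast
  generalize (2 * ((b : ℂ) + 1)) ^ (t - j) = y
  ring

end Pool.Agent.Helper34.PM
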