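import Mathlib
import Pool.Agent.Helper34.PM.Defs
import Pool.Agent.Helper34.PM.QEv
import Pool.Agent.Helper21.PM.A
import Pool.Agent.Helper80.PM.G

/-! Smallness of the values of `Q` at `pi`. -/

namespace Pool.Agent.Helper34.PM

open Polynomial Finset Pool.Agent.PM
open Pool.Agent.Helper21.PM (schwarz cauchy)
open Pool.Agent.Helper80.PM (FF_diff FF_iter FF_le)

private theorem exp34 (i : ℕ × Bool) (s : ℕ) :
    Complex.exp (lam i * ((s : ℂ) * (Real.pi : ℂ))) = 1 := by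
  rw [Complex.exp_eq_one_iff]
  refine ⟨(if i.2 then 1 else -1) * ((i.1 : ℤ) + 1) * s, ?_⟩
  unfold lam
  split_ifs <;> push_cast <;> ring

private theorem FF_at34 (M L : ℕ) (v : ℕ → ℕ → ℤ[X]) (t s : ℕ) :
    iteratedDeriv t (FF M L v) ((s : ℂ) * (Real.pi : ℂ)) =
      ((aeval Real.pi (Q M L v t s) : ℝ) : ℂ) := by
  rw [FF_iter]
  have h1 : ((aeval Real.pi (Q M L v t s) : ℝ) : ℂ) = aeval (Real.pi : ℂ) (Q M L v t s) := by
    have := Polynomial.aeval_algebraMap_apply ℂ Real.pi (Q M L v t s)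
    simpa using this.symm
  rw [h1, Q_eval]
  refine Finset.sum_congr rfl fun i _ => ?_
  rw [exp34, mul_one]

/-- smallness, from A, G, Q -/
theorem small {N : ℕ} (hN : 1 ≤ N) (v : ℕ → ℕ → ℤ[X]) {H : ℝ}
    (hd : ∀ a b, (v a b).natDegree < 4000 * N) (hH : ∀ a b i, |((v a b).coeff i : ℝ)| ≤ H)
    (hz : ∀ s < N, ∀ t < 1000 * N, Q (4000 * N) N v t s = 0) {s t : ℕ} (hs : s < 10 * N)
    (_ht : t < 1000 * N) :
    |aeval Real.pi (Q (4000 * N) N v t s)| ≤ (t.factorial : ℝ) *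
      ((2 * N * (4000 * N : ℕ) * ((4000 * N : ℕ) * 4 ^ (4000 * N) * H) *
        (300 * N : ℝ) ^ (4000 * N) * Real.exp (2 * N * (300 * N))) *
        (1 / 8) ^ (N * (1000 * N))) := by
  have hN0 : (1 : ℝ) ≤ N := by exact_mod_cast hN
  have hpi : Real.pi < 3.15 := Real.pi_lt_d2
  have hpi0 : 0 < Real.pi := Real.pi_pos
  have hnp : ∀ s : ℕ, ‖(s : ℂ) * (Real.pi : ℂ)‖ = s * Real.pi := by
    intro s
    rw [norm_mul, Complex.norm_natCast, Complex.norm_real, Real.norm_of_nonneg hpi0.le]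
  set B : ℝ := 2 * N * (4000 * N : ℕ) * ((4000 * N : ℕ) * 4 ^ (4000 * N) * H) *
        (300 * N : ℝ) ^ (4000 * N) * Real.exp (2 * N * (300 * N)) with hBdef
  have hH0 : 0 ≤ H := le_trans (abs_nonneg _) (hH 0 0 0)
  have hB0 : 0 ≤ B := by positivity
  have hB : ∀ z : ℂ, ‖z‖ = 300 * N → ‖FF (4000 * N) N v z‖ ≤ B := by
    intro z hz
    exact FF_le (4000 * N) N v hd hH (by linarith) z hz.le
  have hinj : Set.InjOn (fun s : ℕ => (s : ℂ) * (Real.pi : ℂ)) (Set.Iio N) := by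
    intro a _ b _ hab
    have h2 : (Real.pi : ℂ) ≠ 0 := by exact_mod_cast hpi0.ne'
    have h3 := mul_right_cancel₀ h2 hab
    exact_mod_cast h3
  have hsch : ∀ z : ℂ, ‖z‖ ≤ 33 * N → ‖FF (4000 * N) N v z‖ ≤
      B * ((33 * N + 3.15 * N) / (300 * N - 3.15 * N)) ^ (N * (1000 * N)) := by
    intro z hz'
    refine schwarz (FF_diff _ _ _) N (1000 * N) (fun s : ℕ => (s : ℂ) * (Real.pi : ℂ)) hinj
      (r := 3.15 * N) (R1 := 33 * N) (R2 := 300 * N) ?_ (by positivity) (by linarith)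
      (by positivity) (by linarith) ?_ hB z hz'
    · intro s hs
      have : (s : ℝ) ≤ N := by exact_mod_cast hs.le
      rw [hnp]
      calc (s : ℝ) * Real.pi ≤ N * 3.15 := by
            apply mul_le_mul this hpi.le hpi0.le (by positivity)
        _ = 3.15 * N := by ring
    · intro s hs t ht
      rw [FF_at34, hz s hs t ht]
      simp
  have hrat : (33 * (N : ℝ) + 3.15 * N) / (300 * N - 3.15 * N) ≤ 1 / 8 := by
    rw [div_le_div_iff₀ (by linarith) (by norm_num)]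
    linarith
  have hrat0 : 0 ≤ (33 * (N : ℝ) + 3.15 * N) / (300 * N - 3.15 * N) := by
    apply div_nonneg <;> linarith
  have hc := cauchy (FF_diff (4000 * N) N v) t ((s : ℂ) * (Real.pi : ℂ))
    (B := B * (1 / 8) ^ (N * (1000 * N))) (by
      intro z hz'
      refine (hsch z ?_).trans ?_
      · have h1 : ‖z‖ ≤ ‖z - (s : ℂ) * (Real.pi : ℂ)‖ + ‖(s : ℂ) * (Real.pi : ℂ)‖ := by
          simpa using norm_add_le (z - (s : ℂ) * (Real.pi : ℂ)) ((s : ℂ) * (Real.pi : ℂ))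
        rw [hnp] at h1
        have h2 : (s : ℝ) ≤ 10 * N := by exact_mod_cast hs.le
        have h3 : (s : ℝ) * Real.pi ≤ 10 * N * 3.15 :=
          mul_le_mul h2 hpi.le hpi0.le (by positivity)
        linarith
      · exact mul_le_mul_of_nonneg_left (pow_le_pow_left₀ hrat0 hrat _) hB0)
  rw [FF_at34, Complex.norm_real, Real.norm_eq_abs] at hc
  exact hc

end Pool.Agent.Helper34.PM
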