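import Mathlib
import Pool.Agent.Helper34.PM.Num

/-! Numerical bounds for the transcendence measure of pi with exponent 3. -/

namespace Pool.Agent.Helper34.PM

open Polynomial Finset Pool.Agent.PM

theorem sq_le_two_pow (l : ℕ) : l ^ 2 ≤ 2 ^ (l + 1) := by
  have h : ∀ l, (l + 3) ^ 2 ≤ 2 ^ (l + 4) := by
    intro l
    induction l with
    | zero => norm_num
    | succ n ih =>
      calc (n + 1 + 3) ^ 2 ≤ 2 * (n + 3) ^ 2 := by
            have h1 : (n + 1 + 3) ^ 2 = n * n + 8 * n + 16 := by ring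
            have h2 : 2 * (n + 3) ^ 2 = 2 * (n * n) + 12 * n + 18 := by ring
            omega
        _ ≤ 2 * 2 ^ (n + 4) := by omega
        _ = 2 ^ (n + 1 + 4) := by ring
  rcases Nat.lt_or_ge l 3 with h3 | h3
  · interval_cases l <;> norm_num
  · obtain ⟨k, rfl⟩ := Nat.exists_eq_add_of_le h3
    have := h k
    calc (3 + k) ^ 2 = (k + 3) ^ 2 := by ring
      _ ≤ 2 ^ (k + 4) := this
      _ = 2 ^ (3 + k + 1) := by ring

theorem E_ge3 {m l : ℕ} (hl : 1 ≤ l) (hml : m ≤ 2 ^ l) :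
    (10 ^ 5 * (1000 * (m * l) : ℕ) : ℝ) ≤ Real.exp (20 * l) := by
  have h1 : (4 * 10 ^ 8 : ℝ) ≤ Real.exp 20 := by
    have := Real.exp_one_gt_d9
    calc (4 * 10 ^ 8 : ℝ) ≤ 2.7 ^ 20 := by norm_num
      _ ≤ (Real.exp 1) ^ 20 := by
          apply pow_le_pow_left₀ (by norm_num)
          linarith
      _ = Real.exp 20 := by rw [← Real.exp_nat_mul]; norm_num
  have h2 : (m : ℝ) ≤ 2 ^ l := by exact_mod_cast hml
  have h3 : (l : ℝ) ≤ 2 ^ l := by exact_mod_cast (Nat.lt_two_pow_self (n := l)).le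
  have h4 : (10 ^ 8 : ℝ) ≤ (10 ^ 8) ^ l := by
    calc (10 ^ 8 : ℝ) = (10 ^ 8) ^ 1 := by ring
      _ ≤ (10 ^ 8) ^ l := pow_le_pow_right₀ (by norm_num) hl
  calc (10 ^ 5 * (1000 * (m * l) : ℕ) : ℝ) = 10 ^ 8 * ((m : ℝ) * l) := by push_cast; ring
    _ ≤ (10 ^ 8) ^ l * (2 ^ l * 2 ^ l) := by gcongr
    _ = (4 * 10 ^ 8) ^ l := by rw [← mul_pow, ← mul_pow]; norm_num
    _ ≤ (Real.exp 20) ^ l := pow_le_pow_left₀ (by norm_num) h1 _
    _ = Real.exp (20 * l) := by rw [← Real.exp_nat_mul]; ring_nf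

/-- the smallness condition -/
theorem main1_3 {m l N d : ℕ} (hm : 1 ≤ m) (hl : 1 ≤ l) (hN : N = 1000 * (m * l)) (hd : d ≤ m)
    {mu V W : ℝ} (hmu : 1 ≤ mu) (hmu1 : Real.log mu ≤ m)
    (hV : V ≤ Real.exp (20 * l) ^ (19009 * N) * Real.exp (-(1400 * N ^ 2))) (hV0 : 0 ≤ V)
    (hW : W ≤ Real.exp (20 * l) ^ (16010 * N)) (hW0 : 0 ≤ W) :
    2 * V * W ^ d * mu ^ (8000 * N) < 1 := by
  have hm0 : (1 : ℝ) ≤ m := by exact_mod_cast hm
  have hl0 : (1 : ℝ) ≤ l := by exact_mod_cast hl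
  have hNr : (N : ℝ) = 1000 * (m * l) := by rw [hN]; push_cast; ring
  have hml : (1 : ℝ) ≤ (m : ℝ) * l := by nlinarith
  have hN1 : (1 : ℝ) ≤ N := by rw [hNr]; nlinarith
  have hmue : mu ≤ Real.exp m := by
    rw [← Real.log_le_iff_le_exp (by linarith)]
    exact hmu1
  have hdr : (d : ℝ) ≤ m := by exact_mod_cast hd
  have hWd : W ^ d ≤ Real.exp (320200 * N * (m * l)) := by
    calc W ^ d ≤ (Real.exp (20 * l) ^ (16010 * N)) ^ d := pow_le_pow_left₀ hW0 hW _
      _ = Real.exp (320200 * N * (d * l)) := by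
          rw [← pow_mul, ← Real.exp_nat_mul]
          congr 1
          push_cast
          ring
      _ ≤ Real.exp (320200 * N * (m * l)) := by
          apply Real.exp_le_exp.mpr
          gcongr
  have hmup : mu ^ (8000 * N) ≤ Real.exp (8000 * N * m) := by
    calc mu ^ (8000 * N) ≤ (Real.exp m) ^ (8000 * N) :=
          pow_le_pow_left₀ (by linarith) hmue _
      _ = Real.exp (8000 * N * m) := by
          rw [← Real.exp_nat_mul]
          congr 1
          push_cast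
          ring
  have hVe : V ≤ Real.exp (380180 * N * l - 1400 * N ^ 2) := by
    refine hV.trans (le_of_eq ?_)
    rw [← Real.exp_nat_mul, ← Real.exp_add]
    congr 1
    push_cast
    ring
  have h2 : (2 : ℝ) ≤ Real.exp 1 := by
    have := Real.add_one_le_exp (1 : ℝ)
    linarith
  calc 2 * V * W ^ d * mu ^ (8000 * N)
      ≤ Real.exp 1 * Real.exp (380180 * N * l - 1400 * N ^ 2) *
        Real.exp (320200 * N * (m * l)) * Real.exp (8000 * N * m) := by gcongr
    _ = Real.exp (1 + (380180 * N * l - 1400 * N ^ 2) + 320200 * N * (m * l) + 8000 * N * m) := by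
        rw [← Real.exp_add, ← Real.exp_add, ← Real.exp_add]
    _ < Real.exp 0 := by
        apply Real.exp_lt_exp.mpr
        have h3 : 1400 * (N : ℝ) ^ 2 = 1400000 * (N * (m * l)) := by
          rw [sq]
          nth_rewrite 2 [hNr]
          ring
        have h4 : (N : ℝ) * l ≤ N * (m * l) := by
          have : (l : ℝ) ≤ m * l := by nlinarith
          gcongr
        have h6 : (N : ℝ) * m ≤ N * (m * l) := by
          have : (m : ℝ) ≤ m * l := by nlinarith
          gcongr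
        have h5 : (1 : ℝ) ≤ N * (m * l) := by nlinarith
        linarith
    _ = 1 := Real.exp_zero

/-- the final bound -/
theorem main2_3 {m l N d : ℕ} (hm : 1 ≤ m) (hl : 1 ≤ l) (hml : m ≤ 2 ^ l)
    (hlm : l ^ 2 ≤ 4 * m) (hN : N = 1000 * (m * l)) (hd : d ≤ m) {mu H2 : ℝ}
    (hmu : 1 ≤ mu) (hmu1 : Real.log mu ≤ m) (hH0 : 0 ≤ H2)
    (hW : (((8000 * N : ℕ) : ℝ) + 1) * H2 ≤ Real.exp (20 * l) ^ (16010 * N)) :
    (2 * (((8000 * N : ℕ) : ℝ) + 1) ^ 2 * 4 ^ (8000 * N) * H2) ^ d * mu ^ (8000 * N) ≤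
      Real.exp (2000000000 * (m : ℝ) ^ 3) := by
  have hm0 : (1 : ℝ) ≤ m := by exact_mod_cast hm
  have hl0 : (1 : ℝ) ≤ l := by exact_mod_cast hl
  have hml1 : (1 : ℝ) ≤ (m : ℝ) * l := by nlinarith
  have hNr : (N : ℝ) = 1000 * (m * l) := by rw [hN]; push_cast; ring
  have hN1 : (1 : ℝ) ≤ N := by rw [hNr]; nlinarith
  have hNn : 1 ≤ N := by exact_mod_cast hN1
  have hE := E_ge3 hl hml
  rw [← hN] at hE
  set E := Real.exp (20 * l) with hEdef
  have hE1 : 1 ≤ E := by linarith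
  have hmue : mu ≤ Real.exp m := by
    rw [← Real.log_le_iff_le_exp (by linarith)]
    exact hmu1
  have hdr : (d : ℝ) ≤ m := by exact_mod_cast hd
  have h1 : 2 * (((8000 * N : ℕ) : ℝ) + 1) ≤ E := by push_cast; linarith
  have h4 : (4 : ℝ) ≤ E := by linarith
  have hbr : 2 * (((8000 * N : ℕ) : ℝ) + 1) ^ 2 * 4 ^ (8000 * N) * H2 ≤ E ^ (24011 * N) := by
    calc 2 * (((8000 * N : ℕ) : ℝ) + 1) ^ 2 * 4 ^ (8000 * N) * H2
        = (2 * (((8000 * N : ℕ) : ℝ) + 1)) * 4 ^ (8000 * N) *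
          ((((8000 * N : ℕ) : ℝ) + 1) * H2) := by ring
      _ ≤ E * E ^ (8000 * N) * E ^ (16010 * N) := by gcongr
      _ = E ^ (24010 * N + 1) := by
          rw [show 24010 * N + 1 = 1 + 8000 * N + 16010 * N by ring, pow_add, pow_add, pow_one]
      _ ≤ E ^ (24011 * N) := pow_le_pow_right₀ hE1 (by omega)
  have hlm' : (l : ℝ) ^ 2 ≤ 4 * m := by exact_mod_cast hlm
  have hbd : (2 * (((8000 * N : ℕ) : ℝ) + 1) ^ 2 * 4 ^ (8000 * N) * H2) ^ d ≤
      Real.exp (480220 * N * (m * l)) := by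
    calc (2 * (((8000 * N : ℕ) : ℝ) + 1) ^ 2 * 4 ^ (8000 * N) * H2) ^ d
        ≤ (E ^ (24011 * N)) ^ d := pow_le_pow_left₀ (by positivity) hbr _
      _ = Real.exp (480220 * N * (d * l)) := by
          rw [← pow_mul, hEdef, ← Real.exp_nat_mul]
          congr 1
          push_cast
          ring
      _ ≤ Real.exp (480220 * N * (m * l)) := by
          apply Real.exp_le_exp.mpr
          gcongr
  have hmup : mu ^ (8000 * N) ≤ Real.exp (8000 * N * m) := by
    calc mu ^ (8000 * N) ≤ (Real.exp m) ^ (8000 * N) :=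
          pow_le_pow_left₀ (by linarith) hmue _
      _ = Real.exp (8000 * N * m) := by
          rw [← Real.exp_nat_mul]
          congr 1
          push_cast
          ring
  calc (2 * (((8000 * N : ℕ) : ℝ) + 1) ^ 2 * 4 ^ (8000 * N) * H2) ^ d * mu ^ (8000 * N)
      ≤ Real.exp (480220 * N * (m * l)) * Real.exp (8000 * N * m) := by gcongr
    _ = Real.exp (480220 * N * (m * l) + 8000 * N * m) := by rw [← Real.exp_add]
    _ ≤ Real.exp (2000000000 * (m : ℝ) ^ 3) := by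
        apply Real.exp_le_exp.mpr
        have h6 : (N : ℝ) * m ≤ N * (m * l) := by
          have : (m : ℝ) ≤ m * l := by nlinarith
          gcongr
        have h7 : (N : ℝ) * (m * l) ≤ 4000 * m ^ 3 := by
          rw [hNr]
          calc 1000 * ((m : ℝ) * l) * (m * l) = 1000 * m ^ 2 * l ^ 2 := by ring
            _ ≤ 1000 * m ^ 2 * (4 * m) := by gcongr
            _ = 4000 * m ^ 3 := by ring
        have h8 : (0 : ℝ) ≤ (m : ℝ) ^ 3 := by positivity
        linarith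

end Pool.Agent.Helper34.PM
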