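import Mathlib
import Pool.Agent.Helper34.PM.Defs
import Pool.Agent.Helper34.PM.Num3
import Pool.Agent.Helper34.PM.Irr
import Pool.Agent.Helper44.PM.R3

/-! The transcendence measure of pi for irreducible polynomials, exponent 3. -/

namespace Pool.Agent.Helper34.PM

open Polynomial Finset Pool.Agent.PM
open Pool.Agent.Helper77.PM (exists_nondiv)
open Pool.Agent.Helper99.PM (one_le_Mm strip)
open Pool.Agent.Helper44.PM (res_ineq2)

/-- the irreducible case -/
theorem meas_irr3 : ∃ C : ℝ, 0 < C ∧ ∀ P : ℤ[X], Irreducible P → 0 < P.natDegree →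
    Real.exp (-(C * (P.natDegree + Real.log (Mm P)) ^ 3)) ≤ |aeval Real.pi P| := by
  refine ⟨16000000000, by norm_num, fun P hP hd => ?_⟩
  have hmu := one_le_Mm hP.ne_zero
  have hlog := Real.log_nonneg hmu
  have hd1 : (1 : ℝ) ≤ P.natDegree := by exact_mod_cast hd
  by_cases hX : P ∣ X
  · -- `P = X` or `P = -X`
    have hass : Associated P X := (hP.dvd_irreducible_iff_associated irreducible_X).mp hX
    obtain ⟨u, hu⟩ := hass.symm
    have h1 : |aeval Real.pi P| = Real.pi := by
      rw [← hu, map_mul, aeval_X, abs_mul, abs_of_pos Real.pi_pos]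
      have : |aeval Real.pi (u : ℤ[X])| = 1 := by
        obtain ⟨c, hc, hcu⟩ := Polynomial.isUnit_iff.mp u.isUnit
        rw [← hcu, aeval_C]
        rcases Int.isUnit_iff.mp hc with h | h <;> rw [h] <;> simp
      rw [this, mul_one]
    rw [h1]
    have h2 : Real.exp (-(16000000000 * (P.natDegree + Real.log (Mm P)) ^ 3)) ≤ 1 := by
      rw [Real.exp_le_one_iff]
      have : 0 ≤ 16000000000 * (P.natDegree + Real.log (Mm P)) ^ 3 := by positivity
      linarith
    linarith [Real.pi_gt_three]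
  · set m : ℕ := ⌈(P.natDegree : ℝ) + Real.log (Mm P)⌉₊ with hmdef
    have hm0 : (P.natDegree : ℝ) + Real.log (Mm P) ≤ m := Nat.le_ceil _
    have hm1 : (m : ℝ) < (P.natDegree : ℝ) + Real.log (Mm P) + 1 :=
      Nat.ceil_lt_add_one (by positivity)
    have hm : 1 ≤ m := by
      have : (1 : ℝ) ≤ m := by linarith
      exact_mod_cast this
    have hdm : P.natDegree ≤ m := by
      have : (P.natDegree : ℝ) ≤ m := by linarith
      exact_mod_cast this
    have hmr : (1 : ℝ) ≤ m := by exact_mod_cast hm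
    obtain ⟨l, hldef⟩ : ∃ l, l = Nat.log 2 m + 1 := ⟨_, rfl⟩
    have hl : 1 ≤ l := by omega
    have hml : m ≤ 2 ^ l := by
      rw [hldef]
      exact (Nat.lt_pow_succ_log_self (by norm_num) m).le
    have hlm : l ^ 2 ≤ 4 * m := by
      have h1 : 2 ^ Nat.log 2 m ≤ m := Nat.pow_log_le_self 2 (by omega)
      have h2 := sq_le_two_pow l
      have h3 : 2 ^ (l + 1) = 4 * 2 ^ Nat.log 2 m := by
        rw [hldef]
        ring
      omega
    set N : ℕ := 1000 * (m * l) with hNdef
    have hN : 1 ≤ N := by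
      rw [hNdef]
      have : 0 < m * l := by positivity
      omega
    have hE := E_ge3 hl hml
    rw [← hNdef] at hE
    set M : ℕ := 4000 * N with hMdef
    obtain ⟨v, hv0, hvd, hvH, hvz⟩ := siegel (M := M) (L := N) (T := 1000 * N) (S := N)
      (by omega) (by omega) (by omega) (by omega) (by rw [hMdef]; nlinarith)
    obtain ⟨e, w, hvw, hwP, hwd, hwH⟩ := strip hP hd v hv0 hvd hvH
    set H1 : ℝ := 2 ^ M * (((M : ℕ) + 1) * ((M : ℝ) * N * M * Bq M N (1000 * N) N)) with hH1
    have hH1le : H1 ≤ Real.exp (20 * l) ^ (10005 * N) := H1_le34 hN hE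
    have hH10 : 0 ≤ H1 := le_trans (abs_nonneg _) (hwH 0 0 0)
    -- the zeros
    have hwz : ∀ s < N, ∀ t < 1000 * N, Q M N w t s = 0 := by
      intro s hs t ht
      have h1 : Q M N v t s = P ^ e * Q M N w t s := by
        rw [← Q_mul]
        unfold Q
        refine Finset.sum_congr rfl fun a ha => Finset.sum_congr rfl fun b hb => ?_
        rw [hvw a (Finset.mem_range.mp ha) b (Finset.mem_range.mp hb)]
      rw [hvz s hs t ht] at h1
      rcases mul_eq_zero.mp h1.symm with h2 | h2
      · exact absurd h2 (pow_ne_zero _ hP.ne_zero)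
      · exact h2
    obtain ⟨s, hs, t, ht, hR⟩ := exists_nondiv hP hd hX hN w hwP
    rw [← hMdef] at hR
    set R := Q M N w t s with hRdef
    set H2 : ℝ := (M : ℝ) * N * ((M : ℝ) * H1 * Bq M N (1000 * N) (10 * N)) with hH2
    have hRH : ∀ i, |(R.coeff i : ℝ)| ≤ H2 := fun i => Q_coeff hwd hwH ht hs i
    have hH21 : 1 ≤ H2 := by
      -- `R ≠ 0` has a nonzero coefficient
      have hR0 : R ≠ 0 := by
        intro h
        exact hR (h ▸ dvd_zero P)
      have h1 : R.leadingCoeff ≠ 0 := leadingCoeff_ne_zero.mpr hR0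
      have h2 : (1 : ℝ) ≤ |(R.leadingCoeff : ℝ)| := by
        have := Int.one_le_abs h1
        exact_mod_cast this
      exact h2.trans (hRH _)
    have hval : |aeval Real.pi R| ≤ Real.exp (20 * l) ^ (19009 * N) *
        Real.exp (-(1400 * (N : ℝ) ^ 2)) :=
      (small hN w hwd hwH hwz hs ht).trans (val_le34 hN hE hH1le hH10 ht)
    have hW : (((8000 * N : ℕ) : ℝ) + 1) * H2 ≤ Real.exp (20 * l) ^ (16010 * N) :=
      H2_le34 hN hE hH1le hH10
    have hW0 : 0 ≤ (((8000 * N : ℕ) : ℝ) + 1) * H2 := by positivity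
    have hlgm : Real.log (Mm P) ≤ m := by linarith
    have hsm := main1_3 hm hl hNdef hdm hmu hlgm hval (abs_nonneg _) hW hW0
    have hRd : R.natDegree ≤ 8000 * N := by
      have := Q_natDegree (M := M) (L := N) (v := w) hwd t s
      rw [← hRdef] at this
      omega
    have hpi4 : |Real.pi| ≤ 4 := by
      rw [abs_of_pos Real.pi_pos]
      exact Real.pi_le_four
    have hfin := res_ineq2 hP hd hR hRd hRH hH21 hpi4 hsm
    have hbig := main2_3 hm hl hml hlm hNdef hdm hmu hlgm (by linarith) hW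
    have h3 : 1 ≤ Real.exp (2000000000 * (m : ℝ) ^ 3) * |aeval Real.pi P| :=
      hfin.trans (mul_le_mul_of_nonneg_right hbig (abs_nonneg _))
    have h4 : Real.exp (-(2000000000 * (m : ℝ) ^ 3)) ≤ |aeval Real.pi P| := by
      rw [Real.exp_neg, inv_le_iff_one_le_mul₀ (Real.exp_pos _), mul_comm]
      exact h3
    refine le_trans (Real.exp_le_exp.mpr ?_) h4
    set y : ℝ := (P.natDegree : ℝ) + Real.log (Mm P) with hy
    have hy1 : 1 ≤ y := by linarith
    have hm2 : (m : ℝ) ≤ 2 * y := by linarith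
    have h5 : (m : ℝ) ^ 3 ≤ 8 * y ^ 3 := by
      calc (m : ℝ) ^ 3 ≤ (2 * y) ^ 3 := pow_le_pow_left₀ (by linarith) hm2 _
        _ = 8 * y ^ 3 := by ring
    linarith

end Pool.Agent.Helper34.PM
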