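import Mathlib
import Pool.Agent.Helper34.PM.Irr3
import Pool.Agent.Helper41.LD.Defs
import Pool.Agent.Helper64.PM.Reduce

/-!
# Transcendence measure of pi with exponent 3 and corollaries
-/

namespace Pool.Agent.Helper34.PM

open Polynomial Finset Pool.Agent.PM
open Pool.Agent.Helper64.PM (mm_mul one_le_mm mm_le)

/-- all polynomials, Mahler measure -/
theorem meas_mahler : ∃ C : ℝ, 0 < C ∧ ∀ P : ℤ[X], P ≠ 0 →
    Real.exp (-(C * (P.natDegree + Real.log (Mm P)) ^ 3)) ≤ |aeval Real.pi P| := by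
  obtain ⟨C, hC, h⟩ := meas_irr3
  refine ⟨C, hC, ?_⟩
  have hφ : ∀ P : ℤ[X], P ≠ 0 → 0 ≤ (P.natDegree : ℝ) + Real.log (Mm P) := fun P hP =>
    add_nonneg (Nat.cast_nonneg _) (Real.log_nonneg (one_le_mm hP))
  intro P
  induction P using WfDvdMonoid.induction_on_irreducible with
  | zero => exact fun h => absurd rfl h
  | unit u hu =>
    intro hu0
    obtain ⟨a, ha, rfl⟩ := Polynomial.isUnit_iff.mp hu
    have h1 : (1 : ℝ) ≤ |aeval Real.pi (Polynomial.C a)| := by
      rw [aeval_C, algebraMap_int_eq, eq_intCast]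
      exact_mod_cast Int.one_le_abs ha.ne_zero
    refine le_trans ?_ h1
    rw [Real.exp_le_one_iff, neg_nonpos]
    have := hφ _ hu0
    positivity
  | mul a i ha0 hi ih =>
    intro hne
    have hi0 := hi.ne_zero
    have h1 := ih ha0
    have h2 : Real.exp (-(C * (i.natDegree + Real.log (Mm i)) ^ 3)) ≤ |aeval Real.pi i| := by
      rcases Nat.eq_zero_or_pos i.natDegree with hd | hd
      · have h3 : i = Polynomial.C (i.coeff 0) := eq_C_of_natDegree_eq_zero hd
        have h4 : i.coeff 0 ≠ 0 := fun h => hi0 (by rw [h3, h, C_0])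
        have h5 : (1 : ℝ) ≤ |aeval Real.pi i| := by
          rw [h3, aeval_C, algebraMap_int_eq, eq_intCast]
          exact_mod_cast Int.one_le_abs h4
        refine le_trans ?_ h5
        rw [Real.exp_le_one_iff, neg_nonpos]
        have := hφ i hi0
        positivity
      · exact h i hi hd
    have p1 := hφ i hi0
    have p2 := hφ a ha0
    rw [natDegree_mul hi0 ha0, mm_mul,
      Real.log_mul (by linarith [one_le_mm hi0]) (by linarith [one_le_mm ha0]),
      map_mul, abs_mul]
    refine le_trans ?_ (mul_le_mul h2 h1 (Real.exp_nonneg _) (abs_nonneg _))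
    rw [← Real.exp_add]
    apply Real.exp_le_exp.mpr
    have h6 : ((i.natDegree : ℝ) + Real.log (Mm i)) ^ 3 + (a.natDegree + Real.log (Mm a)) ^ 3 ≤
        (((i.natDegree + a.natDegree : ℕ) : ℝ) + (Real.log (Mm i) + Real.log (Mm a))) ^ 3 := by
      have e : (((i.natDegree + a.natDegree : ℕ) : ℝ) + (Real.log (Mm i) + Real.log (Mm a))) =
          ((i.natDegree : ℝ) + Real.log (Mm i)) + (a.natDegree + Real.log (Mm a)) := by
        push_cast
        ring
      rw [e]
      exact pow_add_pow_le p1 p2 (by norm_num)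
    nlinarith [mul_le_mul_of_nonneg_left h6 hC.le]

/-- `|P(pi)| ≥ exp (- C (d + log H)^3)`, `H ≥ 1` a bound for the coefficients -/
theorem meas_pi3 : ∃ C : ℝ, 0 < C ∧ ∀ (d : ℕ) (H : ℝ) (P : ℤ[X]), P ≠ 0 → P.natDegree ≤ d →
    1 ≤ H → (∀ i, |(P.coeff i : ℝ)| ≤ H) →
    Real.exp (-(C * ((d : ℝ) + Real.log H) ^ 3)) ≤ |aeval Real.pi P| := by
  obtain ⟨C, hC, h⟩ := meas_mahler
  refine ⟨C * 2 ^ 3, by positivity, fun d H P hP hd hH1 hc => ?_⟩
  refine le_trans (Real.exp_le_exp.mpr ?_) (h P hP)
  apply neg_le_neg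
  rw [mul_assoc, ← mul_pow]
  have h1 : Mm P ≤ (d + 1) * H := mm_le hd hc
  have h2 : Real.log (Mm P) ≤ Real.log ((d + 1) * H) :=
    Real.log_le_log (by linarith [one_le_mm hP]) h1
  have hd0 : (0 : ℝ) ≤ d := Nat.cast_nonneg _
  rw [Real.log_mul (by linarith) (by linarith)] at h2
  have h3 : Real.log ((d : ℝ) + 1) ≤ d := by
    have := Real.log_le_sub_one_of_pos (show (0 : ℝ) < d + 1 by linarith)
    linarith
  have h5 : 0 ≤ Real.log H := Real.log_nonneg hH1
  have h6 : (P.natDegree : ℝ) ≤ d := by exact_mod_cast hd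
  have h7 : 0 ≤ (P.natDegree : ℝ) + Real.log (Mm P) :=
    add_nonneg (Nat.cast_nonneg _) (Real.log_nonneg (one_le_mm hP))
  gcongr
  linarith

/-- `|q pi^d - p| ≥ exp (- C (d + log q)^3)` -/
theorem dioph_pi : Pool.Agent.Helper41.LD.Dioph Real.pi 3 := by
  obtain ⟨C, hC, h⟩ := meas_pi3
  refine ⟨C * 4 ^ 3, by positivity, fun d q hd hq p => ?_⟩
  have hq1 : (1 : ℝ) ≤ q := by exact_mod_cast hq
  have hd1 : (1 : ℝ) ≤ d := by exact_mod_cast hd
  have hlq : 0 ≤ Real.log q := Real.log_nonneg hq1
  by_cases hbig : 1 ≤ |(q : ℝ) * Real.pi ^ d - p|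
  · refine le_trans ?_ hbig
    rw [Real.exp_le_one_iff, neg_nonpos]
    positivity
  · push Not at hbig
    -- the polynomial `q X^d - p`
    set P : ℤ[X] := Polynomial.C (q : ℤ) * X ^ d - Polynomial.C p with hPdef
    have hval : aeval Real.pi P = (q : ℝ) * Real.pi ^ d - p := by
      rw [hPdef]
      simp
    have hcoef : P.coeff d = q := by
      rw [hPdef, coeff_sub, coeff_C_mul, coeff_X_pow, if_pos rfl, mul_one,
        coeff_C, if_neg (by omega), sub_zero]
    have hP0 : P ≠ 0 := by
      intro h0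
      rw [h0, coeff_zero] at hcoef
      have : (q : ℤ) = 0 := hcoef.symm
      omega
    have hPd : P.natDegree ≤ d := by
      rw [hPdef]
      refine (natDegree_sub_le _ _).trans (max_le ?_ ?_)
      · exact (natDegree_C_mul_le _ _).trans (natDegree_X_pow_le d)
      · rw [natDegree_C]
        exact Nat.zero_le _
    set H : ℝ := q * 4 ^ d + 1 with hHdef
    have hH1 : 1 ≤ H := by
      rw [hHdef]
      have : 0 ≤ (q : ℝ) * 4 ^ d := by positivity
      linarith
    have hqH : (q : ℝ) ≤ H := by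
      rw [hHdef]
      have h4 : (1 : ℝ) ≤ 4 ^ d := one_le_pow₀ (by norm_num)
      nlinarith
    have hpH : |(p : ℝ)| ≤ H := by
      have h1 : |(p : ℝ)| ≤ |(q : ℝ) * Real.pi ^ d| + |(q : ℝ) * Real.pi ^ d - p| := by
        have := abs_sub_abs_le_abs_sub (p : ℝ) ((q : ℝ) * Real.pi ^ d)
        rw [abs_sub_comm] at this
        linarith
      have h2 : |(q : ℝ) * Real.pi ^ d| ≤ q * 4 ^ d := by
        rw [abs_of_nonneg (by positivity)]
        have := Real.pi_le_four
        gcongr
      rw [hHdef]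
      linarith
    have hc : ∀ i, |(P.coeff i : ℝ)| ≤ H := by
      intro i
      rw [hPdef, coeff_sub, coeff_C_mul, coeff_X_pow, coeff_C]
      by_cases hi : i = d
      · rw [if_pos hi, mul_one, if_neg (by omega), sub_zero]
        push_cast
        rw [abs_of_nonneg (by positivity)]
        exact hqH
      · rw [if_neg hi, mul_zero, zero_sub]
        split_ifs
        · push_cast
          rw [abs_neg]
          exact hpH
        · simp only [neg_zero, Int.cast_zero, abs_zero]
          linarith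
    have key := h d H P hP0 hPd hH1 hc
    rw [hval] at key
    refine le_trans (Real.exp_le_exp.mpr ?_) key
    apply neg_le_neg
    rw [mul_assoc, ← mul_pow]
    have hlH : Real.log H ≤ Real.log q + 3 * d := by
      have h1 : H ≤ q * Real.exp (3 * d) := by
        have he : (5 : ℝ) ≤ Real.exp 3 := by
          have h2 := Real.exp_one_gt_d9
          have h3 : Real.exp 3 = Real.exp 1 ^ 3 := by rw [← Real.exp_nat_mul]; norm_num
          rw [h3]
          nlinarith [sq_nonneg (Real.exp 1)]
        have h2 : (4 : ℝ) ^ d + 1 ≤ 5 ^ d := by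
          obtain ⟨k, rfl⟩ := Nat.exists_eq_add_of_le hd
          have h3 : (4 : ℝ) ^ k ≤ 5 ^ k := pow_le_pow_left₀ (by norm_num) (by norm_num) k
          have h4 : (1 : ℝ) ≤ 5 ^ k := one_le_pow₀ (by norm_num)
          rw [pow_add, pow_add, pow_one, pow_one]
          linarith
        have h3 : (5 : ℝ) ^ d ≤ Real.exp (3 * d) := by
          calc (5 : ℝ) ^ d ≤ (Real.exp 3) ^ d := pow_le_pow_left₀ (by norm_num) he _
            _ = Real.exp (3 * d) := by rw [← Real.exp_nat_mul, mul_comm]
        calc H = q * 4 ^ d + 1 := rfl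
          _ ≤ q * (4 ^ d + 1) := by nlinarith
          _ ≤ q * Real.exp (3 * d) := by
              apply mul_le_mul_of_nonneg_left (h2.trans h3) (by linarith)
      have h2 := Real.log_le_log (by linarith) h1
      rwa [Real.log_mul (by linarith) (Real.exp_pos _).ne', Real.log_exp] at h2
    have h8 : 0 ≤ Real.log H := Real.log_nonneg hH1
    gcongr
    linarith

end Pool.Agent.Helper34.PM
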