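import Mathlib
import Pool.Agent.Helper34.PM.Irr
import Pool.Agent.Helper64.PM.Reduce

/-!
# A transcendence measure of pi, polynomial in the degree and in the logarithm of the height

Gelfond's method: auxiliary function `sum v_ab(pi) w^a cos (2 (b + 1) w)` with zeros of order
`1000 N` at `pi s`, `s < N`. Blocks by helper21 (Schwarz lemma), helper44 and helper79 (zero
estimate), helper44 and helper99 (resultants, heights), helper64 (products), helper77 (a value
not divisible by `P`), helper80 (the function), helper95 (Siegel's lemma), helper34.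
-/

namespace Pool.Agent.Helper34.PM

open Polynomial

/-- `|P(pi)| ≥ exp (- C (d + log (1 + H))^A)` for all nonzero integer polynomials. -/
theorem meas_pi : ∃ (A : ℕ) (C : ℝ), 0 < C ∧ ∀ (d H : ℕ) (P : ℤ[X]), P ≠ 0 → P.natDegree ≤ d →
    (∀ i, |P.coeff i| ≤ H) →
    Real.exp (-(C * ((d : ℝ) + Real.log (1 + H)) ^ A)) ≤ |aeval Real.pi P| :=
  Pool.Agent.Helper64.PM.reduce meas_irr

end Pool.Agent.Helper34.PM
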